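import Mathlib

set_option autoImplicit false
open MeasureTheory

namespace Pool.Agent.Results.MP_aa6ebe_pr.LocallyVirtuallyAbelian

/-- `μ` is admissible: symmetric, and its support generates the group. -/
def Admissible {G : Type} [Group G] (μ : PMF G) : Prop :=
  (∀ g : G, μ g⁻¹ = μ g) ∧ Subgroup.closure μ.support = ⊤

/-- The law of the i.i.d. steps `ω 0, ω 1, ...` with law `μ`. -/
noncomputable def steps {G : Type} [MeasurableSpace G] (μ : PMF G) : Measure (ℕ → G) :=
  Measure.infinitePi (fun _ : ℕ => μ.toMeasure)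

/-- The walk: `walk ω m = ω 0 * ω 1 * ... * ω (m - 1)`. -/
def walk {G : Type} [Group G] (ω : ℕ → G) (m : ℕ) : G := ((List.range m).map ω).prod

/-- The semigroup generated by `walk ω n, walk ω (n + 1), ...`. -/
def tail {G : Type} [Group G] (ω : ℕ → G) (n : ℕ) : Subsemigroup G :=
  Subsemigroup.closure {g | ∃ m, n ≤ m ∧ g = walk ω m}

/-- `(G, μ)` is algebraically recurrent. -/
def AR {G : Type} [Group G] [MeasurableSpace G] (μ : PMF G) : Prop :=
  ∀ n : ℕ, 1 ≤ n → ∀ᵐ ω ∂(steps μ), tail ω n = ⊤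

section Helpers

open Filter Topology

/-- the infinite dihedral group -/
abbrev D := DihedralGroup 0

lemma countable_D : Countable D := by
  have : Countable (ZMod 0) := inferInstanceAs (Countable ℤ)
  exact (DihedralGroup.equivSum (n := 0)).injective.countable

/-- restricted direct product of countably many copies of `D`. -/
def GS : Subgroup (ℕ → D) where
  carrier := {f | ∃ N, ∀ i, N ≤ i → f i = 1}
  mul_mem' := by
    rintro a b ⟨N, hN⟩ ⟨M, hM⟩
    refine ⟨max N M, fun i hi => ?_⟩
    rw [Pi.mul_apply, hN i (le_trans (le_max_left _ _) hi), hM i (le_trans (le_max_right _ _) hi),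
      one_mul]
  one_mem' := ⟨0, fun i _ => rfl⟩
  inv_mem' := by
    rintro a ⟨N, hN⟩
    exact ⟨N, fun i hi => by rw [Pi.inv_apply, hN i hi, inv_one]⟩

lemma countable_GS : Countable GS := by
  have := countable_D
  have h : (Set.univ : Set GS) = ⋃ N : ℕ, {f : GS | ∀ i, N ≤ i → (f : ℕ → D) i = 1} := by
    ext f
    simp only [Set.mem_univ, Set.mem_iUnion, true_iff]
    obtain ⟨N, hN⟩ := f.2
    exact ⟨N, hN⟩
  rw [← Set.countable_univ_iff, h]
  apply Set.countable_iUnion
  intro N
  have hinj : Function.Injective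
      (fun f : {f : GS | ∀ i, N ≤ i → (f : ℕ → D) i = 1} => fun i : Fin N => (f.1 : ℕ → D) i) := by
    intro f g hfg
    apply Subtype.ext
    apply Subtype.ext
    funext i
    by_cases hi : i < N
    · exact congrFun hfg ⟨i, hi⟩
    · rw [f.2 i (by omega), g.2 i (by omega)]
  exact hinj.countable

/-- elements supported on coordinates `< d` -/
def H (d : ℕ) : Subgroup GS where
  carrier := {f | ∀ i, d ≤ i → (f : ℕ → D) i = 1}
  mul_mem' := by
    intro a b ha hb i hi
    have h1 := ha i hi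
    have h2 := hb i hi
    simp only [Subgroup.coe_mul, Pi.mul_apply, h1, h2, one_mul]
  one_mem' := fun i _ => rfl
  inv_mem' := by
    intro a ha i hi
    have h1 := ha i hi
    simp only [Subgroup.coe_inv, Pi.inv_apply, h1, inv_one]

lemma mem_H {d : ℕ} {f : GS} : f ∈ H d ↔ ∀ i, d ≤ i → (f : ℕ → D) i = 1 := Iff.rfl

lemma H_mono {d e : ℕ} (h : d ≤ e) : H d ≤ H e := fun _ hf i hi => hf i (h.trans hi)

lemma exists_mem_H (f : GS) : ∃ d, f ∈ H d := f.2

/-- reflection in all coordinates `≤ d` -/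
def s (d : ℕ) : GS := ⟨fun i => if i ≤ d then DihedralGroup.sr 0 else 1, d + 1, fun i hi => by
  simp [show ¬ i ≤ d by omega]⟩

/-- the element with single coordinate `x` at `d` -/
def single (d : ℕ) (x : D) : GS := ⟨fun i => if i = d then x else 1, d + 1, fun i hi => by
  simp [show ¬ i = d by omega]⟩

lemma s_apply (d i : ℕ) : (s d : ℕ → D) i = if i ≤ d then DihedralGroup.sr 0 else 1 := rfl
lemma single_apply (d i : ℕ) (x : D) : (single d x : ℕ → D) i = if i = d then x else 1 := rfl

lemma alg1 (a b : D) :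
    b * ((a * (a * DihedralGroup.sr 0)) * ((b * b) * (a * (a * DihedralGroup.sr 0)))) = b⁻¹ := by
  rcases a with a | a <;> rcases b with b | b <;> simp

lemma key (d : ℕ) (h x : GS) (hh : h ∈ H d) (hx : x ∈ H d) :
    x * ((h * (h * s d)) * ((x * x) * (h * (h * s d)))) = x⁻¹ := by
  apply Subtype.ext
  funext i
  simp only [Subgroup.coe_mul, Pi.mul_apply, Subgroup.coe_inv, Pi.inv_apply, s_apply]
  by_cases hi : i ≤ d
  · simp only [hi, if_true]
    exact alg1 _ _
  · simp only [hi, if_false]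
    rw [hh i (by omega), hx i (by omega)]
    simp


lemma single_mul (k : ℕ) (x y : D) : single k x * single k y = single k (x * y) := by
  apply Subtype.ext; funext i
  simp only [Subgroup.coe_mul, Pi.mul_apply, single_apply]
  split_ifs <;> simp

lemma single_one (k : ℕ) : single k 1 = 1 := by
  apply Subtype.ext; funext i
  simp [single_apply]

lemma single_inv (k : ℕ) (x : D) : (single k x)⁻¹ = single k x⁻¹ := by
  rw [inv_eq_iff_mul_eq_one, single_mul, mul_inv_cancel, single_one]

/-- `single k` as a homomorphism -/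
def singleHom (k : ℕ) : D →* GS where
  toFun := single k
  map_one' := single_one k
  map_mul' x y := (single_mul k x y).symm

lemma closure_gen (C : Subgroup GS) (h1 : ∀ k, single k (DihedralGroup.r 1) ∈ C)
    (h2 : ∀ k, single k (DihedralGroup.sr 0) ∈ C) : C = ⊤ := by
  have h3 : ∀ k (x : D), single k x ∈ C := by
    intro k x
    have hr : ∀ a : ZMod 0, single k (DihedralGroup.r a) ∈ C := by
      intro a
      have ha : DihedralGroup.r a = (DihedralGroup.r 1 : D) ^ (ZMod.cast a : ℤ) := by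
        rw [DihedralGroup.r_zpow, one_mul, ZMod.intCast_zmod_cast]
      have h5 := C.zpow_mem (h1 k) (ZMod.cast a : ℤ)
      have h6 : single k (DihedralGroup.r a)
          = single k (DihedralGroup.r 1) ^ (ZMod.cast a : ℤ) := by
        rw [ha]
        exact map_zpow (singleHom k) (DihedralGroup.r 1) (ZMod.cast a : ℤ)
      rw [h6]; exact h5
    rcases x with a | a
    · exact hr a
    · have := C.mul_mem (h2 k) (hr a)
      rwa [single_mul, DihedralGroup.sr_mul_r, zero_add] at this
  have h4 : ∀ d, H d ≤ C := by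
    intro d
    induction d with
    | zero =>
      intro f hf
      have : f = 1 := by
        apply Subtype.ext; funext i
        exact hf i (Nat.zero_le i)
      rw [this]; exact C.one_mem
    | succ d ih =>
      intro f hf
      have hx : f * (single d ((f : ℕ → D) d))⁻¹ ∈ H d := by
        intro i hi
        simp only [Subgroup.coe_mul, Pi.mul_apply, Subgroup.coe_inv, Pi.inv_apply, single_apply]
        by_cases hid : i = d
        · subst hid; simp
        · simp only [hid, if_false, inv_one, mul_one]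
          exact hf i (by omega)
      have := C.mul_mem (ih hx) (h3 d ((f : ℕ → D) d))
      simpa using this
  rw [eq_top_iff]
  intro f _
  obtain ⟨d, hd⟩ := exists_mem_H f
  exact h4 d hd

section TailPMF

variable (W : ℕ → ℝ) (h0 : W 0 = 1) (hanti : Antitone W) (hlim : Tendsto W atTop (𝓝 0))

include h0 hanti hlim in
lemma hasSum_tail : HasSum (fun k => ENNReal.ofReal (W k - W (k + 1))) 1 := by
  have hn : ∀ k, 0 ≤ W k - W (k + 1) := fun k => sub_nonneg.2 (hanti (Nat.le_succ k))
  have hs : HasSum (fun k => W k - W (k + 1)) 1 := by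
    rw [hasSum_iff_tendsto_nat_of_nonneg hn]
    have : (fun n => ∑ i ∈ Finset.range n, (W i - W (i + 1))) = fun n => W 0 - W n := by
      funext n; rw [Finset.sum_range_sub']
    rw [this, h0]
    simpa using hlim.const_sub 1
  have h := ENNReal.ofReal_tsum_of_nonneg hn hs.summable
  rw [hs.tsum_eq, ENNReal.ofReal_one] at h
  rw [h]
  exact ENNReal.summable.hasSum

/-- the law on `ℕ` with tails `P(k ≥ m) = W m` -/
noncomputable def tailPMF : PMF ℕ := ⟨fun k => ENNReal.ofReal (W k - W (k + 1)),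
  hasSum_tail W h0 hanti hlim⟩

lemma tailPMF_apply (k : ℕ) :
    tailPMF W h0 hanti hlim k = ENNReal.ofReal (W k - W (k + 1)) := rfl

lemma tailPMF_lt (m : ℕ) :
    (tailPMF W h0 hanti hlim).toMeasure {k | k < m} = ENNReal.ofReal (1 - W m) := by
  have : {k : ℕ | k < m} = ↑(Finset.range m) := by ext; simp
  rw [this, PMF.toMeasure_apply_finset]
  simp_rw [tailPMF_apply]
  rw [← ENNReal.ofReal_sum_of_nonneg, Finset.sum_range_sub', h0]
  intro i _
  exact sub_nonneg.2 (hanti (Nat.le_succ i))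

lemma tailPMF_ge (m : ℕ) :
    (tailPMF W h0 hanti hlim).toMeasure {k | m ≤ k} = ENNReal.ofReal (W m) := by
  have : {k : ℕ | m ≤ k} = {k | k < m}ᶜ := by ext; simp
  have hW1 : W m ≤ 1 := h0 ▸ hanti (Nat.zero_le m)
  rw [this, prob_compl_eq_one_sub MeasurableSet.of_discrete, tailPMF_lt,
    ← ENNReal.ofReal_one, ← ENNReal.ofReal_sub _ (by linarith)]
  congr 1; ring

end TailPMF

/-- partial products -/
def X (ω : ℕ → GS) (k : ℕ) : GS := ((List.range k).map ω).prod

lemma X_zero (ω : ℕ → GS) : X ω 0 = 1 := rfl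

lemma X_succ (ω : ℕ → GS) (k : ℕ) : X ω (k + 1) = X ω k * ω k := by
  simp [X, List.range_succ]

lemma X_mem_H (ω : ℕ → GS) (d k : ℕ) (h : ∀ l < k, ω l ∈ H d) : X ω k ∈ H d := by
  induction k with
  | zero => rw [X_zero]; exact (H d).one_mem
  | succ k ih =>
    rw [X_succ]
    exact (H d).mul_mem (ih fun l hl => h l (by omega)) (h k (by omega))

lemma ar_det (u : ℕ → GS) (hu : Subgroup.closure (Set.range u) = ⊤) (ω : ℕ → GS) (n : ℕ)
    (h1 : ∀ i, ∃ k, n ≤ k ∧ ω k = u i)
    (h2 : ∀ N, ∃ d, N ≤ d ∧ ∃ j, n ≤ j ∧ ω j = s d ∧ ∀ l < j, ω l ∈ H d) :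
    Subsemigroup.closure (Set.range fun k : ℕ => X ω (n + k)) = ⊤ := by
  set S := Subsemigroup.closure (Set.range fun k : ℕ => X ω (n + k)) with hS
  have hX : ∀ k, n ≤ k → X ω k ∈ S := by
    intro k hk
    apply Subsemigroup.subset_closure
    exact ⟨k - n, by simp [Nat.add_sub_cancel' hk]⟩
  have hinv : ∀ x ∈ S, x⁻¹ ∈ S := by
    intro x hx
    obtain ⟨N, hN⟩ := exists_mem_H x
    obtain ⟨d, hd, j, hj, hωj, hl⟩ := h2 N
    have hXj : X ω j ∈ H d := X_mem_H ω d j hl
    have hX1 := hX j hj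
    have hX2 := hX (j + 1) (by omega)
    rw [X_succ, hωj] at hX2
    have hz := S.mul_mem hX1 hX2
    rw [← key d (X ω j) x hXj (H_mono hd hN)]
    exact S.mul_mem hx (S.mul_mem hz (S.mul_mem (S.mul_mem hx hx) hz))
  let T : Subgroup GS :=
    { carrier := S
      mul_mem' := fun ha hb => S.mul_mem ha hb
      one_mem' := by
        have h := S.mul_mem (hX n le_rfl) (hinv _ (hX n le_rfl))
        rwa [mul_inv_cancel] at h
      inv_mem' := fun ha => hinv _ ha }
  have hT : T = ⊤ := by
    rw [eq_top_iff, ← hu, Subgroup.closure_le]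
    rintro _ ⟨i, rfl⟩
    obtain ⟨k, hk, hki⟩ := h1 i
    have h3 : (X ω k)⁻¹ * X ω (k + 1) ∈ T := T.mul_mem (T.inv_mem (hX k hk)) (hX (k + 1) (by omega))
    rw [X_succ, inv_mul_cancel_left, hki] at h3
    exact h3
  rw [eq_top_iff]
  intro x _
  have : x ∈ T := by rw [hT]; exact Subgroup.mem_top x
  exact this

/-- the generating involutions -/
def u (k : ℕ) : GS := if k % 2 = 0 then s (k / 2) else single (k / 2) (DihedralGroup.sr 1)

lemma u_even (d : ℕ) : u (2 * d) = s d := by
  simp [u]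

lemma u_odd (d : ℕ) : u (2 * d + 1) = single d (DihedralGroup.sr 1) := by
  have h1 : (2 * d + 1) % 2 = 1 := by omega
  have h2 : (2 * d + 1) / 2 = d := by omega
  simp [u, h1, h2]

lemma u_mem_H (k d : ℕ) : u k ∈ H d ↔ k < 2 * d := by
  rcases Nat.even_or_odd' k with ⟨e, rfl | rfl⟩
  · rw [u_even, mem_H]
    constructor
    · intro h
      by_contra hcon
      have := h e (by omega)
      rw [s_apply, if_pos le_rfl] at this
      exact absurd this (by decide)
    · intro h i hi
      rw [s_apply, if_neg (by omega)]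
  · rw [u_odd, mem_H]
    constructor
    · intro h
      by_contra hcon
      have := h e (by omega)
      rw [single_apply, if_pos rfl] at this
      exact absurd this (by decide)
    · intro h i hi
      rw [single_apply, if_neg (by omega)]

lemma u_inv (k : ℕ) : (u k)⁻¹ = u k := by
  rcases Nat.even_or_odd' k with ⟨e, rfl | rfl⟩
  · rw [u_even]
    apply Subtype.ext; funext i
    simp only [Subgroup.coe_inv, Pi.inv_apply, s_apply]
    split_ifs <;> simp
  · rw [u_odd, single_inv, DihedralGroup.inv_sr]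

lemma closure_u : Subgroup.closure (Set.range u) = ⊤ := by
  set C := Subgroup.closure (Set.range u)
  have hs : ∀ d, s d ∈ C := fun d => Subgroup.subset_closure ⟨2 * d, u_even d⟩
  have hb : ∀ d, single d (DihedralGroup.sr 1) ∈ C :=
    fun d => Subgroup.subset_closure ⟨2 * d + 1, u_odd d⟩
  have ha : ∀ d, single d (DihedralGroup.sr 0) ∈ C := by
    intro d
    cases d with
    | zero =>
      have : single 0 (DihedralGroup.sr 0) = s 0 := by
        apply Subtype.ext; funext i
        simp [single_apply, s_apply]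
      rw [this]; exact hs 0
    | succ d =>
      have : single (d + 1) (DihedralGroup.sr 0) = (s d)⁻¹ * s (d + 1) := by
        apply Subtype.ext; funext i
        simp only [single_apply, s_apply, Subgroup.coe_mul, Pi.mul_apply, Subgroup.coe_inv,
          Pi.inv_apply]
        by_cases h1 : i ≤ d
        · simp [h1, show i ≠ d + 1 by omega, show i ≤ d + 1 by omega]
        · by_cases h2 : i = d + 1
          · subst h2; simp
          · simp [h1, h2, show ¬ i ≤ d + 1 by omega]
      rw [this]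
      exact C.mul_mem (C.inv_mem (hs d)) (hs (d + 1))
  apply closure_gen C _ ha
  intro d
  have := C.mul_mem (ha d) (hb d)
  rwa [single_mul, DihedralGroup.sr_mul_sr, sub_zero] at this

section Prob

variable {G : Type} [MeasurableSpace G] [DiscreteMeasurableSpace G]
variable (ρ : Measure G) [IsProbabilityMeasure ρ]

/-- probability of a cylinder -/
lemma cyl (N : ℕ) (A : ℕ → Set G) :
    Measure.infinitePi (fun _ : ℕ => ρ) {ω : ℕ → G | ∀ l < N, ω l ∈ A l}
      = ∏ l ∈ Finset.range N, ρ (A l) := by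
  have h : {ω : ℕ → G | ∀ l < N, ω l ∈ A l} = Set.pi (↑(Finset.range N)) A := by
    ext ω; simp [Set.mem_pi]
  rw [h, Measure.infinitePi_pi]
  intro i _
  exact MeasurableSet.of_discrete

lemma first_hit (H B : Set G) :
    Measure.infinitePi (fun _ : ℕ => ρ) {ω : ℕ → G | ∃ j, (∀ l < j, ω l ∈ H) ∧ ω j ∈ B}
      ≤ ρ B * (1 - ρ H)⁻¹ := by
  have h : {ω : ℕ → G | ∃ j, (∀ l < j, ω l ∈ H) ∧ ω j ∈ B}
      = ⋃ j, {ω : ℕ → G | ∀ l < j + 1, ω l ∈ (fun l => if l = j then B else H) l} := by
    ext ω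
    simp only [Set.mem_ofPred_eq, Set.mem_iUnion]
    constructor
    · rintro ⟨j, h1, h2⟩
      refine ⟨j, fun l hl => ?_⟩
      by_cases hlj : l = j
      · subst hlj; simpa using h2
      · simp only [hlj, if_false]; exact h1 l (by omega)
    · rintro ⟨j, h1⟩
      refine ⟨j, fun l hl => ?_, ?_⟩
      · have := h1 l (by omega)
        simpa [show l ≠ j by omega] using this
      · have := h1 j (by omega)
        simpa using this
  rw [h]
  refine (measure_iUnion_le _).trans ?_
  have h2 : ∀ j, Measure.infinitePi (fun _ : ℕ => ρ)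
      {ω : ℕ → G | ∀ l < j + 1, ω l ∈ (fun l => if l = j then B else H) l} = ρ H ^ j * ρ B := by
    intro j
    rw [cyl, Finset.prod_range_succ]
    congr 1
    · rw [Finset.prod_congr rfl (g := fun _ => ρ H)]
      · simp
      · intro x hx
        have : x ≠ j := by have := Finset.mem_range.1 hx; omega
        simp [this]
    · simp
  simp_rw [h2]
  rw [ENNReal.tsum_mul_right, ENNReal.tsum_geometric, mul_comm]

lemma two_hits (H B : Set G) :
    Measure.infinitePi (fun _ : ℕ => ρ) {ω : ℕ → G | ∃ j m, (∀ l < j, ω l ∈ H) ∧ ω j ∈ B ∧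
        (∀ l < m, ω (j + 1 + l) ∈ H) ∧ ω (j + 1 + m) ∈ B}
      ≤ (ρ B * (1 - ρ H)⁻¹) ^ 2 := by
  have h : {ω : ℕ → G | ∃ j m, (∀ l < j, ω l ∈ H) ∧ ω j ∈ B ∧
        (∀ l < m, ω (j + 1 + l) ∈ H) ∧ ω (j + 1 + m) ∈ B}
      = ⋃ j, ⋃ m, {ω : ℕ → G | ∀ l < j + 1 + m + 1,
          ω l ∈ (fun l => if l = j ∨ l = j + 1 + m then B else H) l} := by
    ext ω
    simp only [Set.mem_ofPred_eq, Set.mem_iUnion]
    constructor
    · rintro ⟨j, m, h1, h2, h3, h4⟩
      refine ⟨j, m, fun l hl => ?_⟩
      by_cases hlj : l = j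
      · subst hlj; simpa using h2
      · by_cases hlm : l = j + 1 + m
        · subst hlm; simpa using h4
        · simp only [hlj, hlm, or_self, if_false]
          by_cases hl2 : l < j
          · exact h1 l hl2
          · have := h3 (l - (j + 1)) (by omega)
            rwa [show j + 1 + (l - (j + 1)) = l by omega] at this
    · rintro ⟨j, m, h1⟩
      refine ⟨j, m, fun l hl => ?_, ?_, fun l hl => ?_, ?_⟩
      · have := h1 l (by omega)
        simpa [show l ≠ j by omega, show l ≠ j + 1 + m by omega] using this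
      · have := h1 j (by omega)
        simpa using this
      · have := h1 (j + 1 + l) (by omega)
        simpa [show j + 1 + l ≠ j by omega, show l ≠ m by omega] using this
      · have := h1 (j + 1 + m) (by omega)
        simpa using this
  rw [h]
  have h2 : ∀ j m, Measure.infinitePi (fun _ : ℕ => ρ)
      {ω : ℕ → G | ∀ l < j + 1 + m + 1,
          ω l ∈ (fun l => if l = j ∨ l = j + 1 + m then B else H) l}
        = ρ H ^ j * (ρ H ^ m * (ρ B * ρ B)) := by
    intro j m
    rw [cyl, Finset.prod_range_succ, Finset.prod_range_add, Finset.prod_range_succ]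
    have e1 : ∏ x ∈ Finset.range j, ρ (if x = j ∨ x = j + 1 + m then B else H) = ρ H ^ j := by
      rw [Finset.prod_congr rfl (g := fun _ => ρ H)]
      · simp
      · intro x hx
        have hx' := Finset.mem_range.1 hx
        simp [show x ≠ j by omega, show x ≠ j + 1 + m by omega]
    have e2 : ∏ x ∈ Finset.range m, ρ (if j + 1 + x = j ∨ j + 1 + x = j + 1 + m then B else H)
        = ρ H ^ m := by
      rw [Finset.prod_congr rfl (g := fun _ => ρ H)]
      · simp
      · intro x hx
        have hx' := Finset.mem_range.1 hx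
        simp [show j + 1 + x ≠ j by omega, show x ≠ m by omega]
    simp only [e1, e2]
    simp only [true_or, or_true, if_true]
    ring
  refine (measure_iUnion_le _).trans ?_
  calc ∑' j, Measure.infinitePi (fun _ : ℕ => ρ) (⋃ m, {ω : ℕ → G | ∀ l < j + 1 + m + 1,
          ω l ∈ (fun l => if l = j ∨ l = j + 1 + m then B else H) l})
      ≤ ∑' j, ∑' m, Measure.infinitePi (fun _ : ℕ => ρ) {ω : ℕ → G | ∀ l < j + 1 + m + 1,
          ω l ∈ (fun l => if l = j ∨ l = j + 1 + m then B else H) l} :=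
        ENNReal.tsum_le_tsum fun j => measure_iUnion_le _
    _ = ∑' j, ∑' m, ρ H ^ j * (ρ H ^ m * (ρ B * ρ B)) := by simp_rw [h2]
    _ = (ρ B * (1 - ρ H)⁻¹) ^ 2 := by
        simp_rw [ENNReal.tsum_mul_left, ENNReal.tsum_mul_right, ENNReal.tsum_geometric]
        ring

lemma never (H : Set G) (hH : ρ H < 1) (n : ℕ) :
    Measure.infinitePi (fun _ : ℕ => ρ) {ω : ℕ → G | ∀ l, n ≤ l → ω l ∈ H} = 0 := by
  have h : ∀ N : ℕ, Measure.infinitePi (fun _ : ℕ => ρ) {ω : ℕ → G | ∀ l, n ≤ l → ω l ∈ H}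
      ≤ ρ H ^ N := by
    intro N
    calc Measure.infinitePi (fun _ : ℕ => ρ) {ω : ℕ → G | ∀ l, n ≤ l → ω l ∈ H}
        ≤ Measure.infinitePi (fun _ : ℕ => ρ) {ω : ℕ → G | ∀ l < n + N,
            ω l ∈ (fun l => if l < n then Set.univ else H) l} := by
          apply measure_mono
          intro ω hω l hl
          by_cases hln : l < n
          · simp [hln]
          · simp only [hln, if_false]; exact hω l (by omega)
      _ = ρ H ^ N := by
          rw [cyl, Finset.prod_range_add]
          have e1 : ∏ x ∈ Finset.range n, ρ (if x < n then Set.univ else H) = 1 := by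
            apply Finset.prod_eq_one
            intro x hx
            have hx' := Finset.mem_range.1 hx
            simp [hx']
          have e2 : ∏ x ∈ Finset.range N, ρ (if n + x < n then Set.univ else H) = ρ H ^ N := by
            rw [Finset.prod_congr rfl (g := fun _ => ρ H)]
            · simp
            · intro x _
              simp
          rw [e1, e2, one_mul]
  have hlim : Tendsto (fun N : ℕ => ρ H ^ N) atTop (𝓝 0) :=
    ENNReal.tendsto_pow_atTop_nhds_zero_of_lt_one hH
  exact nonpos_iff_eq_zero.1 (ge_of_tendsto' hlim h)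

end Prob

/-- super-exponentially decaying tails -/
noncomputable def W1 (k : ℕ) : ℝ := 1 / ((k + 1).factorial : ℝ)

lemma W1_pos (k : ℕ) : 0 < W1 k := by unfold W1; positivity

lemma W1_zero : W1 0 = 1 := by simp [W1]

lemma W1_strict (k : ℕ) : W1 (k + 1) < W1 k := by
  unfold W1
  apply one_div_lt_one_div_of_lt
  · positivity
  · exact_mod_cast (Nat.factorial_lt (Nat.succ_pos k)).2 (Nat.lt_succ_self _)

lemma W1_ratio (k : ℕ) : W1 (k + 1) / W1 k = 1 / (k + 2) := by
  unfold W1
  rw [Nat.factorial_succ (k + 1)]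
  have h : ((k + 1).factorial : ℝ) ≠ 0 := by positivity
  push_cast
  field_simp
  ring

lemma W1_anti : Antitone W1 := antitone_nat_of_succ_le fun k => (W1_strict k).le

lemma W1_lim : Tendsto W1 atTop (𝓝 0) := by
  unfold W1
  have h : Tendsto (fun k : ℕ => ((k + 1).factorial : ℝ)) atTop atTop := by
    have h1 : Tendsto (fun k : ℕ => ((k : ℝ) + 1)) atTop atTop :=
      tendsto_atTop_add_const_right _ _ tendsto_natCast_atTop_atTop
    refine tendsto_atTop_mono (fun k => ?_) h1
    exact_mod_cast Nat.self_le_factorial (k + 1)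
  simp only [one_div]
  exact tendsto_inv_atTop_zero.comp h

/-- the law for which the group is algebraically recurrent -/
noncomputable def mu : PMF GS := (tailPMF W1 W1_zero W1_anti W1_lim).map u

lemma mu_symm (g : GS) : mu g⁻¹ = mu g := by
  unfold mu
  rw [PMF.map_apply, PMF.map_apply]
  apply tsum_congr
  intro k
  have h : g⁻¹ = u k ↔ g = u k := by
    rw [inv_eq_iff_eq_inv, u_inv]
  by_cases hk : g = u k
  · rw [if_pos hk, if_pos (h.2 hk)]
  · rw [if_neg hk, if_neg fun hh => hk (h.1 hh)]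

lemma mu_support : mu.support = Set.range u := by
  unfold mu
  rw [PMF.support_map]
  have : (tailPMF W1 W1_zero W1_anti W1_lim).support = Set.univ := by
    ext k
    rw [PMF.mem_support_iff, tailPMF_apply]
    simp only [Set.mem_univ, iff_true]
    exact (ENNReal.ofReal_pos.2 (sub_pos.2 (W1_strict k))).ne'
  rw [this, Set.image_univ]

lemma mu_closure : Subgroup.closure mu.support = ⊤ := by
  rw [mu_support]; exact closure_u

section
variable [MeasurableSpace GS] [DiscreteMeasurableSpace GS]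

lemma mu_H (d : ℕ) : mu.toMeasure (H d : Set GS) = ENNReal.ofReal (1 - W1 (2 * d)) := by
  unfold mu
  rw [PMF.toMeasure_map_apply _ _ _ Measurable.of_discrete MeasurableSet.of_discrete]
  have : u ⁻¹' (H d : Set GS) = {k | k < 2 * d} := by
    ext k
    exact u_mem_H k d
  rw [this, tailPMF_lt]

lemma mu_B (d : ℕ) : mu.toMeasure ((H d : Set GS)ᶜ \ {s d}) ≤ ENNReal.ofReal (W1 (2 * d + 1)) := by
  unfold mu
  rw [PMF.toMeasure_map_apply _ _ _ Measurable.of_discrete MeasurableSet.of_discrete,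
    ← tailPMF_ge W1 W1_zero W1_anti W1_lim (2 * d + 1)]
  apply measure_mono
  rintro k ⟨hk1, hk2⟩
  have h1 : ¬ (u k ∈ H d) := hk1
  rw [u_mem_H] at h1
  have h2 : k ≠ 2 * d := by
    rintro rfl
    exact hk2 (u_even d)
  show 2 * d + 1 ≤ k
  omega

lemma mu_u (i : ℕ) : mu.toMeasure ({u i}ᶜ : Set GS) < 1 := by
  have hpos : 0 < mu.toMeasure ({u i} : Set GS) := by
    rw [PMF.toMeasure_apply_singleton _ _ (MeasurableSet.of_discrete)]
    have : u i ∈ mu.support := by rw [mu_support]; exact ⟨i, rfl⟩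
    exact pos_iff_ne_zero.2 ((PMF.mem_support_iff _ _).1 this)
  rw [prob_compl_eq_one_sub MeasurableSet.of_discrete]
  exact ENNReal.sub_lt_self ENNReal.one_ne_top one_ne_zero hpos.ne'

/-- the good event -/
def E (n d : ℕ) : Set (ℕ → GS) := {ω | ∃ j, n ≤ j ∧ ω j = s d ∧ ∀ l < j, ω l ∈ H d}

lemma prob_E (n d : ℕ) :
    Measure.infinitePi (fun _ : ℕ => mu.toMeasure) (E n d)ᶜ
      ≤ n * ENNReal.ofReal (W1 (2 * d)) + ENNReal.ofReal (1 / ((2 * d : ℕ) + 2)) := by
  have hsub : (E n d)ᶜ ⊆ (⋃ l ∈ Finset.range n, {ω : ℕ → GS | ω l ∈ (H d : Set GS)ᶜ})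
      ∪ {ω : ℕ → GS | ∃ j, (∀ l < j, ω l ∈ (H d : Set GS)) ∧ ω j ∈ (H d : Set GS)ᶜ \ {s d}}
      ∪ {ω : ℕ → GS | ∀ l, 0 ≤ l → ω l ∈ (H d : Set GS)} := by
    intro ω hω
    by_contra hcon
    simp only [Set.mem_union, not_or] at hcon
    obtain ⟨⟨hc1, hc2⟩, hc3⟩ := hcon
    have hex : ∃ l, ω l ∉ H d := by
      by_contra hne
      push Not at hne
      exact hc3 fun l _ => hne l
    classical
    let j := Nat.find hex
    have hj : ω j ∉ H d := Nat.find_spec hex
    have hjl : ∀ l < j, ω l ∈ H d := fun l hl => by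
      by_contra h
      exact Nat.find_min hex hl h
    have hnj : n ≤ j := by
      by_contra hlt
      apply hc1
      simp only [Set.mem_iUnion]
      exact ⟨j, Finset.mem_range.2 (by omega), hj⟩
    have hs : ω j = s d := by
      by_contra hne
      exact hc2 ⟨j, hjl, hj, hne⟩
    exact hω ⟨j, hnj, hs, hjl⟩
  have hW := W1_pos (2 * d)
  have hW1 : W1 (2 * d) ≤ 1 := W1_zero ▸ W1_anti (Nat.zero_le _)
  have hcompl : 1 - mu.toMeasure (H d : Set GS) = ENNReal.ofReal (W1 (2 * d)) := by
    rw [mu_H, ← ENNReal.ofReal_one, ← ENNReal.ofReal_sub _ (by linarith)]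
    congr 1; ring
  refine (measure_mono hsub).trans ((measure_union_le _ _).trans ?_)
  have hz : Measure.infinitePi (fun _ : ℕ => mu.toMeasure)
      {ω : ℕ → GS | ∀ l, 0 ≤ l → ω l ∈ (H d : Set GS)} = 0 := by
    apply never
    rw [mu_H, ENNReal.ofReal_lt_one]
    linarith
  rw [hz, add_zero]
  refine (measure_union_le _ _).trans (add_le_add ?_ ?_)
  · refine (measure_biUnion_finset_le _ _).trans ?_
    have h1 : ∀ l ∈ Finset.range n, Measure.infinitePi (fun _ : ℕ => mu.toMeasure)
        {ω : ℕ → GS | ω l ∈ (H d : Set GS)ᶜ} ≤ ENNReal.ofReal (W1 (2 * d)) := by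
      intro l _
      have h2 : {ω : ℕ → GS | ω l ∈ (H d : Set GS)ᶜ}
          = (fun ω : ℕ → GS => ω l) ⁻¹' (H d : Set GS)ᶜ := rfl
      rw [h2, ← Measure.map_apply (measurable_pi_apply l) MeasurableSet.of_discrete,
        Measure.infinitePi_map_eval, prob_compl_eq_one_sub MeasurableSet.of_discrete, hcompl]
    refine (Finset.sum_le_sum h1).trans ?_
    simp
  · refine (first_hit _ _ _).trans ?_
    rw [hcompl]
    calc mu.toMeasure ((H d : Set GS)ᶜ \ {s d}) * (ENNReal.ofReal (W1 (2 * d)))⁻¹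
        ≤ ENNReal.ofReal (W1 (2 * d + 1)) * (ENNReal.ofReal (W1 (2 * d)))⁻¹ := by
          gcongr
          exact mu_B d
      _ = ENNReal.ofReal (1 / ((2 * d : ℕ) + 2)) := by
          rw [← W1_ratio, ENNReal.ofReal_div_of_pos hW, ENNReal.div_eq_inv_mul, mul_comm]

omit [MeasurableSpace GS] [DiscreteMeasurableSpace GS] in
lemma lim_E (n : ℕ) : Tendsto (fun d : ℕ => (n : ENNReal) * ENNReal.ofReal (W1 (2 * d))
      + ENNReal.ofReal (1 / (((2 * d : ℕ) : ℝ) + 2))) atTop (𝓝 0) := by
  have h2 : Tendsto (fun d : ℕ => 2 * d) atTop atTop :=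
    tendsto_atTop_mono (fun d => by show d ≤ 2 * d; omega) tendsto_id
  have hA : Tendsto (fun d : ℕ => ENNReal.ofReal (W1 (2 * d))) atTop (𝓝 0) := by
    have := ENNReal.tendsto_ofReal (W1_lim.comp h2)
    simpa using this
  have hB : Tendsto (fun d : ℕ => ENNReal.ofReal (1 / (((2 * d : ℕ) : ℝ) + 2))) atTop (𝓝 0) := by
    have h3 : Tendsto (fun k : ℕ => (1 : ℝ) / ((k : ℝ) + 2)) atTop (𝓝 0) := by
      have h4 : Tendsto (fun k : ℕ => ((k : ℝ) + 2)) atTop atTop :=
        tendsto_atTop_add_const_right _ _ tendsto_natCast_atTop_atTop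
      simp only [one_div]
      exact tendsto_inv_atTop_zero.comp h4
    have := ENNReal.tendsto_ofReal (h3.comp h2)
    simpa using this
  have hC : Tendsto (fun d : ℕ => (n : ENNReal) * ENNReal.ofReal (W1 (2 * d))) atTop (𝓝 0) := by
    have := ENNReal.Tendsto.const_mul (a := (n : ENNReal)) hA (Or.inr (ENNReal.natCast_ne_top n))
    simpa using this
  simpa using hC.add hB

theorem mu_AR (n : ℕ) : ∀ᵐ ω ∂(Measure.infinitePi (fun _ : ℕ => mu.toMeasure)),
    Subsemigroup.closure (Set.range fun k : ℕ => X ω (n + k)) = ⊤ := by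
  have h1 : ∀ᵐ ω ∂(Measure.infinitePi (fun _ : ℕ => mu.toMeasure)),
      ∀ i, ∃ k, n ≤ k ∧ ω k = u i := by
    rw [ae_all_iff]
    intro i
    rw [ae_iff]
    have := never mu.toMeasure _ (mu_u i) n
    convert this using 2
    ext ω
    simp
  have h2 : ∀ᵐ ω ∂(Measure.infinitePi (fun _ : ℕ => mu.toMeasure)),
      ∀ N, ∃ d, N ≤ d ∧ ω ∈ E n d := by
    rw [ae_all_iff]
    intro N
    rw [ae_iff]
    apply nonpos_iff_eq_zero.1
    apply ge_of_tendsto (lim_E n)
    filter_upwards [eventually_ge_atTop N] with d hd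
    refine le_trans (measure_mono ?_) (prob_E n d)
    intro ω hω hE
    exact hω ⟨d, hd, hE⟩
  filter_upwards [h1, h2] with ω hω1 hω2
  exact ar_det u closure_u ω n hω1 hω2

end

/-- polynomially decaying tails -/
noncomputable def W2 (k : ℕ) : ℝ := 1 / ((k : ℝ) + 1)

lemma W2_pos (k : ℕ) : 0 < W2 k := by unfold W2; positivity

lemma W2_zero : W2 0 = 1 := by simp [W2]

lemma W2_strict (k : ℕ) : W2 (k + 1) < W2 k := by
  unfold W2
  apply one_div_lt_one_div_of_lt
  · positivity
  · push_cast; linarith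

lemma W2_anti : Antitone W2 := antitone_nat_of_succ_le fun k => (W2_strict k).le

lemma W2_lim : Tendsto W2 atTop (𝓝 0) := by
  unfold W2
  have h1 : Tendsto (fun k : ℕ => ((k : ℝ) + 1)) atTop atTop :=
    tendsto_atTop_add_const_right _ _ tendsto_natCast_atTop_atTop
  simp only [one_div]
  exact tendsto_inv_atTop_zero.comp h1

lemma W2_ratio (k : ℕ) : (W2 k - W2 (k + 1)) / W2 k = 1 / (k + 2) := by
  unfold W2
  push_cast
  have h1 : (k : ℝ) + 1 ≠ 0 := by positivity
  have h2 : (k : ℝ) + 1 + 1 ≠ 0 := by positivity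
  have h3 : (k : ℝ) + 2 ≠ 0 := by positivity
  field_simp
  ring

/-- reflections below `i`, a unit translation at `i` -/
def q (i : ℕ) : GS := ⟨fun j => if j < i then DihedralGroup.sr 0 else
    if j = i then DihedralGroup.r 1 else 1, i + 1, fun j hj => by
  simp [show ¬ j < i by omega, show ¬ j = i by omega]⟩

lemma q_apply (i j : ℕ) : (q i : ℕ → D) j = if j < i then DihedralGroup.sr 0 else
    if j = i then DihedralGroup.r 1 else 1 := rfl

open Classical in
/-- the four elements of level `i` -/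
noncomputable def F (i : ℕ) : Finset GS :=
  {single i (DihedralGroup.r 1), (single i (DihedralGroup.r 1))⁻¹, q i, (q i)⁻¹}

lemma mem_F (i : ℕ) (g : GS) : g ∈ F i ↔ g = single i (DihedralGroup.r 1) ∨
    g = (single i (DihedralGroup.r 1))⁻¹ ∨ g = q i ∨ g = (q i)⁻¹ := by
  simp [F]

lemma F_nonempty (i : ℕ) : (F i).Nonempty := ⟨q i, by simp [mem_F]⟩

lemma inv_mem_F (i : ℕ) (g : GS) : g⁻¹ ∈ F i ↔ g ∈ F i := by
  rw [mem_F, mem_F]
  constructor
  · rintro (h | h | h | h)
    · right; left; rw [← h, inv_inv]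
    · left; exact inv_injective h
    · right; right; right; rw [← h, inv_inv]
    · right; right; left; exact inv_injective h
  · rintro (h | h | h | h)
    · right; left; rw [h]
    · left; rw [h, inv_inv]
    · right; right; right; rw [h]
    · right; right; left; rw [h, inv_inv]

/-- elements whose top coordinate is `i` and equals a unit translation -/
def L (i : ℕ) : Set GS := {g | ((g : ℕ → D) i = DihedralGroup.r 1 ∨
    (g : ℕ → D) i = DihedralGroup.r (-1)) ∧ ∀ j, i < j → (g : ℕ → D) j = 1}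

lemma F_sub_L (i : ℕ) : ∀ g ∈ F i, g ∈ L i := by
  intro g hg
  rw [mem_F] at hg
  rcases hg with h | h | h | h <;> subst h
  · refine ⟨Or.inl (by simp [single_apply]), fun j hj => ?_⟩
    rw [single_apply, if_neg (by omega)]
  · refine ⟨Or.inr (by simp [single_apply]), fun j hj => ?_⟩
    rw [Subgroup.coe_inv, Pi.inv_apply, single_apply, if_neg (by omega), inv_one]
  · refine ⟨Or.inl (by simp [q_apply]), fun j hj => ?_⟩
    rw [q_apply, if_neg (by omega), if_neg (by omega)]
  · refine ⟨Or.inr (by simp [q_apply]), fun j hj => ?_⟩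
    rw [Subgroup.coe_inv, Pi.inv_apply, q_apply, if_neg (by omega), if_neg (by omega), inv_one]

lemma r_ne_one (x : D) (hx : x = DihedralGroup.r 1 ∨ x = DihedralGroup.r (-1)) (c : ℕ)
    (hc : 1 ≤ c) : x ^ c ≠ 1 := by
  have hc0 : (c : ZMod 0) ≠ 0 := by
    rw [Ne, ZMod.natCast_eq_zero_iff, zero_dvd_iff]
    omega
  rcases hx with h | h
  · rw [h, DihedralGroup.r_pow, DihedralGroup.one_def]
    intro hcon
    rw [DihedralGroup.r.injEq, one_mul] at hcon
    exact hc0 hcon
  · rw [h, DihedralGroup.r_pow, DihedralGroup.one_def]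
    intro hcon
    rw [DihedralGroup.r.injEq, neg_one_mul, neg_eq_zero] at hcon
    exact hc0 hcon

lemma L_sub_H (i d : ℕ) (h : i < d) : ∀ g ∈ L i, g ∈ H d := fun g hg j hj => hg.2 j (by omega)

lemma L_not_H (i d : ℕ) (h : d ≤ i) : ∀ g ∈ L i, g ∉ H d := by
  intro g hg hH
  have h1 := hH i h
  have := r_ne_one _ hg.1 1 le_rfl
  rw [pow_one] at this
  exact this h1

lemma L_disj (i j : ℕ) (g : GS) (h1 : g ∈ L i) (h2 : g ∈ L j) : i = j := by
  by_contra hne
  rcases lt_or_gt_of_ne hne with h | h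
  · exact L_not_H j j le_rfl g h2 (L_sub_H i j h g h1)
  · exact L_not_H i i le_rfl g h1 (L_sub_H j i h g h2)

/-- level `i` is used at least twice before any higher level is used -/
def Bad (i : ℕ) : Set (ℕ → GS) := {ω | ∃ j m, (∀ l < j, ω l ∈ (H i : Set GS)) ∧ ω j ∈ L i ∧
        (∀ l < m, ω (j + 1 + l) ∈ (H i : Set GS)) ∧ ω (j + 1 + m) ∈ L i}

/-- the subsemigroup of elements whose top coordinate is a positive power of `σ` -/
def K (σ : ℕ → D) : Subsemigroup GS where
  carrier := {g | ∃ i, (σ i = DihedralGroup.r 1 ∨ σ i = DihedralGroup.r (-1)) ∧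
    (∀ j, i < j → (g : ℕ → D) j = 1) ∧ ∃ c : ℕ, 1 ≤ c ∧ (g : ℕ → D) i = σ i ^ c}
  mul_mem' := by
    rintro a b ⟨i, hi1, hi2, c, hc, hi3⟩ ⟨k, hk1, hk2, e, he, hk3⟩
    rcases lt_trichotomy i k with h | h | h
    · refine ⟨k, hk1, fun j hj => ?_, e, he, ?_⟩
      · rw [Subgroup.coe_mul, Pi.mul_apply, hi2 j (by omega), hk2 j hj, one_mul]
      · rw [Subgroup.coe_mul, Pi.mul_apply, hi2 k h, hk3, one_mul]
    · subst h
      refine ⟨i, hi1, fun j hj => ?_, c + e, by omega, ?_⟩
      · rw [Subgroup.coe_mul, Pi.mul_apply, hi2 j hj, hk2 j hj, one_mul]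
      · rw [Subgroup.coe_mul, Pi.mul_apply, hi3, hk3, pow_add]
    · refine ⟨i, hi1, fun j hj => ?_, c, hc, ?_⟩
      · rw [Subgroup.coe_mul, Pi.mul_apply, hi2 j hj, hk2 j (by omega), one_mul]
      · rw [Subgroup.coe_mul, Pi.mul_apply, hi3, hk2 i h, mul_one]

lemma one_notMem_K (σ : ℕ → D) : (1 : GS) ∉ K σ := by
  rintro ⟨i, h1, _, c, hc, h3⟩
  exact r_ne_one _ h1 c hc h3.symm

lemma exists_level (ω : ℕ → GS) (k : ℕ) : ∃ d, ∀ j < k, ω j ∈ H (d + 1) := by
  induction k with
  | zero => exact ⟨0, fun j hj => by omega⟩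
  | succ k ih =>
    obtain ⟨d, hd⟩ := ih
    obtain ⟨e, he⟩ := exists_mem_H (ω k)
    refine ⟨max d e, fun j hj => ?_⟩
    rcases Nat.lt_succ_iff_lt_or_eq.1 hj with h | h
    · exact H_mono (by omega) (hd j h)
    · subst h; exact H_mono (by omega) he

lemma level_eq (ω : ℕ → GS) (hT : ∀ j, ∃ i, ω j ∈ L i) (i j : ℕ) (h1 : ω j ∉ H i)
    (h2 : ω j ∈ H (i + 1)) : ω j ∈ L i := by
  obtain ⟨i', hi'⟩ := hT j
  have h3 : i ≤ i' := by
    by_contra hlt
    exact h1 (L_sub_H i' i (by omega) _ hi')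
  have h4 : i' ≤ i := by
    by_contra hlt
    exact L_not_H i' (i + 1) (by omega) _ hi' h2
  rwa [le_antisymm h3 h4]

lemma nar_det (ω : ℕ → GS) (hT : ∀ j, ∃ i, ω j ∈ L i) (i0 n : ℕ)
    (hbad : ∀ i, i0 ≤ i → ω ∉ Bad i) (hn : ∃ j < n, ω j ∉ H i0) :
    (1 : GS) ∉ Subsemigroup.closure (Set.range fun k : ℕ => X ω (n + k)) := by
  classical
  let σ : ℕ → D := fun i => if h : ∃ j, ω j ∉ H i then (ω (Nat.find h) : ℕ → D) i else 1
  have hX : ∀ k, n ≤ k → X ω k ∈ K σ := by
    intro k hk
    obtain ⟨j0, hj0, hj0H⟩ := hn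
    have hex := exists_level ω k
    set i := Nat.find hex with hi
    have hi1 : ∀ j < k, ω j ∈ H (i + 1) := Nat.find_spec hex
    have hi0 : i0 ≤ i := by
      by_contra hlt
      exact hj0H (H_mono (by omega) (hi1 j0 (by omega)))
    have hex3 : ∃ j < k, ω j ∉ H i := by
      by_cases hii : i = 0
      · refine ⟨j0, by omega, fun h => hj0H (H_mono (by omega) h)⟩
      · have := Nat.find_min hex (m := i - 1) (by omega)
        push Not at this
        obtain ⟨j, hj, hjH⟩ := this
        rw [show i - 1 + 1 = i by omega] at hjH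
        exact ⟨j, hj, hjH⟩
    have hex2 : ∃ j, ω j ∉ H i := by
      obtain ⟨j, _, hj⟩ := hex3
      exact ⟨j, hj⟩
    have hσ : σ i = (ω (Nat.find hex2) : ℕ → D) i := dif_pos hex2
    set j := Nat.find hex2 with hj
    have hjH : ω j ∉ H i := Nat.find_spec hex2
    have hjk : j < k := by
      obtain ⟨j', hj', hj'H⟩ := hex3
      exact lt_of_le_of_lt (Nat.find_min' hex2 hj'H) hj'
    have hjl : ∀ l < j, ω l ∈ H i := fun l hl => by
      by_contra h
      exact Nat.find_min hex2 hl h
    have hjL : ω j ∈ L i := level_eq ω hT i j hjH (hi1 j hjk)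
    have hafter : ∀ m, j + 1 + m < k → ω (j + 1 + m) ∈ H i := by
      by_contra hcon
      push Not at hcon
      let m := Nat.find hcon
      have hm : j + 1 + m < k ∧ ω (j + 1 + m) ∉ H i := Nat.find_spec hcon
      have hml : ∀ l < m, ω (j + 1 + l) ∈ H i := fun l hl => by
        have := Nat.find_min hcon hl
        push Not at this
        exact this (by omega)
      exact hbad i hi0 ⟨j, m, hjl, hjL, hml, level_eq ω hT i _ hm.2 (hi1 _ hm.1)⟩
    have hcoord : ∀ m, j + 1 + m ≤ k → (X ω (j + 1 + m) : ℕ → D) i = (ω j : ℕ → D) i := by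
      intro m
      induction m with
      | zero =>
        intro _
        rw [add_zero, X_succ, Subgroup.coe_mul, Pi.mul_apply, X_mem_H ω i j hjl i le_rfl, one_mul]
      | succ m ih =>
        intro hm
        rw [← add_assoc, X_succ, Subgroup.coe_mul, Pi.mul_apply, ih (by omega),
          hafter m (by omega) i le_rfl, mul_one]
    refine ⟨i, ?_, fun j' hj' => X_mem_H ω (i + 1) k hi1 j' hj', 1, le_rfl, ?_⟩
    · rw [hσ]; exact hjL.1
    · have := hcoord (k - (j + 1)) (by omega)
      rw [show j + 1 + (k - (j + 1)) = k by omega] at this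
      rw [this, hσ, pow_one]
  intro h1
  have hle : Subsemigroup.closure (Set.range fun k : ℕ => X ω (n + k)) ≤ K σ := by
    rw [Subsemigroup.closure_le]
    rintro _ ⟨k, rfl⟩
    exact hX (n + k) (Nat.le_add_right _ _)
  exact one_notMem_K σ (hle h1)

/-- the law for which the group is not algebraically recurrent -/
noncomputable def nu : PMF GS :=
  (tailPMF W2 W2_zero W2_anti W2_lim).bind fun i => PMF.uniformOfFinset (F i) (F_nonempty i)

lemma nu_symm (g : GS) : nu g⁻¹ = nu g := by
  unfold nu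
  rw [PMF.bind_apply, PMF.bind_apply]
  apply tsum_congr
  intro i
  congr 1
  rw [PMF.uniformOfFinset_apply, PMF.uniformOfFinset_apply]
  by_cases h : g ∈ F i
  · rw [if_pos h, if_pos ((inv_mem_F i g).2 h)]
  · rw [if_neg h, if_neg fun hh => h ((inv_mem_F i g).1 hh)]

lemma nu_support : nu.support = ⋃ i, (F i : Set GS) := by
  unfold nu
  rw [PMF.support_bind]
  have : (tailPMF W2 W2_zero W2_anti W2_lim).support = Set.univ := by
    ext k
    rw [PMF.mem_support_iff, tailPMF_apply]
    simp only [Set.mem_univ, iff_true]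
    exact (ENNReal.ofReal_pos.2 (sub_pos.2 (W2_strict k))).ne'
  rw [this]
  simp

lemma nu_closure : Subgroup.closure nu.support = ⊤ := by
  rw [nu_support]
  set C := Subgroup.closure (⋃ i, (F i : Set GS))
  have ht : ∀ i, single i (DihedralGroup.r 1) ∈ C := fun i =>
    Subgroup.subset_closure (Set.mem_iUnion.2 ⟨i, by simp [mem_F]⟩)
  have hq : ∀ i, q i ∈ C := fun i =>
    Subgroup.subset_closure (Set.mem_iUnion.2 ⟨i, by simp [mem_F]⟩)
  apply closure_gen C ht
  intro i
  have : single i (DihedralGroup.sr 0) = ((single i (DihedralGroup.r 1))⁻¹ * q i)⁻¹ *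
      ((single (i + 1) (DihedralGroup.r 1))⁻¹ * q (i + 1)) := by
    apply Subtype.ext; funext j
    simp only [single_apply, q_apply, Subgroup.coe_mul, Pi.mul_apply, Subgroup.coe_inv,
      Pi.inv_apply]
    rcases lt_trichotomy j i with h | h | h
    · simp [h, show j ≠ i by omega, show j < i + 1 by omega, show j ≠ i + 1 by omega]
    · subst h
      simp
    · by_cases h2 : j = i + 1
      · subst h2; simp
      · simp [show ¬ j < i by omega, show j ≠ i by omega, show ¬ j < i + 1 by omega, h2]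
  rw [this]
  exact C.mul_mem (C.inv_mem (C.mul_mem (C.inv_mem (ht i)) (hq i)))
    (C.mul_mem (C.inv_mem (ht (i + 1))) (hq (i + 1)))

section
variable [MeasurableSpace GS] [DiscreteMeasurableSpace GS]

lemma unif_of_subset (i : ℕ) (A : Set GS) (h : ∀ g ∈ F i, g ∈ A) :
    (PMF.uniformOfFinset (F i) (F_nonempty i)).toMeasure A = 1 := by
  rw [PMF.toMeasure_apply_eq_one_iff _ MeasurableSet.of_discrete]
  intro g hg
  rw [PMF.support_uniformOfFinset] at hg
  exact h g hg

lemma unif_of_disj (i : ℕ) (A : Set GS) (h : ∀ g ∈ F i, g ∉ A) :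
    (PMF.uniformOfFinset (F i) (F_nonempty i)).toMeasure A = 0 := by
  rw [PMF.toMeasure_apply_eq_zero_iff _ MeasurableSet.of_discrete]
  rw [Set.disjoint_left]
  intro g hg
  rw [PMF.support_uniformOfFinset] at hg
  exact h g hg

lemma nu_H (d : ℕ) : nu.toMeasure (H d : Set GS) = ENNReal.ofReal (1 - W2 d) := by
  unfold nu
  rw [PMF.toMeasure_bind_apply _ _ _ MeasurableSet.of_discrete,
    ← tailPMF_lt W2 W2_zero W2_anti W2_lim d, PMF.toMeasure_apply _ MeasurableSet.of_discrete]
  apply tsum_congr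
  intro i
  by_cases h : i < d
  · rw [unif_of_subset i _ fun g hg => L_sub_H i d h g (F_sub_L i g hg), mul_one,
      Set.indicator_of_mem (show i ∈ {k | k < d} from h)]
  · rw [unif_of_disj i _ fun g hg => L_not_H i d (by omega) g (F_sub_L i g hg), mul_zero,
      Set.indicator_of_notMem (show i ∉ {k | k < d} from h)]

lemma nu_L (d : ℕ) : nu.toMeasure (L d) = ENNReal.ofReal (W2 d - W2 (d + 1)) := by
  unfold nu
  rw [PMF.toMeasure_bind_apply _ _ _ MeasurableSet.of_discrete]
  rw [tsum_eq_single d]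
  · rw [unif_of_subset d _ fun g hg => F_sub_L d g hg, mul_one, tailPMF_apply]
  · intro i hi
    rw [unif_of_disj i _ fun g hg hL => hi (L_disj i d g (F_sub_L i g hg) hL), mul_zero]

lemma nu_T : nu.toMeasure {g | ∃ i, g ∈ L i} = 1 := by
  rw [PMF.toMeasure_apply_eq_one_iff _ MeasurableSet.of_discrete, nu_support]
  intro g hg
  obtain ⟨i, hi⟩ := Set.mem_iUnion.1 hg
  exact ⟨i, F_sub_L i g hi⟩

lemma prob_Bad (i : ℕ) :
    Measure.infinitePi (fun _ : ℕ => nu.toMeasure) (Bad i) ≤ ENNReal.ofReal ((1 / ((i : ℝ) + 2)) ^ 2) := by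
  have hW := W2_pos i
  have hW1 : W2 i ≤ 1 := W2_zero ▸ W2_anti (Nat.zero_le _)
  have hcompl : 1 - nu.toMeasure (H i : Set GS) = ENNReal.ofReal (W2 i) := by
    rw [nu_H, ← ENNReal.ofReal_one, ← ENNReal.ofReal_sub _ (by linarith)]
    congr 1; ring
  refine (two_hits _ _ _).trans ?_
  rw [hcompl, nu_L, ENNReal.ofReal_pow (by positivity), ← W2_ratio,
    ENNReal.ofReal_div_of_pos hW, ENNReal.div_eq_inv_mul, mul_comm]

theorem nu_strong : ∀ᵐ ω ∂(Measure.infinitePi (fun _ : ℕ => nu.toMeasure)),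
    ∃ n : ℕ, 1 ≤ n ∧ (1 : GS) ∉ Subsemigroup.closure (Set.range fun k : ℕ => X ω (n + k)) := by
  have h1 : ∀ᵐ ω ∂(Measure.infinitePi (fun _ : ℕ => nu.toMeasure)), ∀ j, ∃ i, ω j ∈ L i := by
    rw [ae_all_iff]
    intro j
    have h2 : {ω : ℕ → GS | ¬ ∃ i, ω j ∈ L i}
        = (fun ω : ℕ → GS => ω j) ⁻¹' {g | ∃ i, g ∈ L i}ᶜ := rfl
    rw [ae_iff, h2, ← Measure.map_apply (measurable_pi_apply j) MeasurableSet.of_discrete,
      Measure.infinitePi_map_eval, prob_compl_eq_one_sub MeasurableSet.of_discrete, nu_T,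
      tsub_self]
  have h2 : ∀ᵐ ω ∂(Measure.infinitePi (fun _ : ℕ => nu.toMeasure)),
      ∀ᶠ i in atTop, ω ∉ Bad i := by
    apply ae_eventually_notMem
    have hs : Summable fun i : ℕ => (1 / ((i : ℝ) + 2)) ^ 2 := by
      have h3 : Summable fun i : ℕ => (1 : ℝ) / ((i : ℝ)) ^ 2 :=
        Real.summable_one_div_nat_pow.2 one_lt_two
      have h4 := (summable_nat_add_iff 2).2 h3
      refine h4.congr fun i => ?_
      push_cast
      rw [div_pow, one_pow]
    refine ne_top_of_le_ne_top ?_ (ENNReal.tsum_le_tsum prob_Bad)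
    rw [← ENNReal.ofReal_tsum_of_nonneg (fun i => by positivity) hs]
    exact ENNReal.ofReal_ne_top
  have h3 : ∀ᵐ ω ∂(Measure.infinitePi (fun _ : ℕ => nu.toMeasure)), ∀ i0, ∃ j, ω j ∉ H i0 := by
    rw [ae_all_iff]
    intro i0
    rw [ae_iff]
    have hlt : nu.toMeasure (H i0 : Set GS) < 1 := by
      rw [nu_H, ENNReal.ofReal_lt_one]
      linarith [W2_pos i0]
    have := never nu.toMeasure _ hlt 0
    convert this using 2
    ext ω
    simp
  filter_upwards [h1, h2, h3] with ω hω1 hω2 hω3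
  obtain ⟨i0, hi0⟩ := eventually_atTop.1 hω2
  obtain ⟨j, hj⟩ := hω3 i0
  exact ⟨j + 1, by omega, nar_det ω hω1 i0 (j + 1) hi0 ⟨j, Nat.lt_succ_self j, hj⟩⟩

end

end Helpers




section Final

lemma tail_eq (ω : ℕ → GS) (n : ℕ) :
    tail ω n = Subsemigroup.closure (Set.range fun k : ℕ => X ω (n + k)) := by
  unfold tail
  congr 1
  ext g
  constructor
  · rintro ⟨m, hm, rfl⟩
    exact ⟨m - n, by simp only [X, walk]; rw [show n + (m - n) = m by omega]⟩
  · rintro ⟨k, rfl⟩
    exact ⟨n + k, Nat.le_add_right _ _, rfl⟩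

/-- rotations go to `1`, reflections to `-1` -/
def sgn : D →* ℤˣ where
  toFun x := match x with
    | DihedralGroup.r _ => 1
    | DihedralGroup.sr _ => -1
  map_one' := rfl
  map_mul' := by
    rintro (i | i) (j | j)
    · rw [DihedralGroup.r_mul_r]; simp
    · rw [DihedralGroup.r_mul_sr]; simp
    · rw [DihedralGroup.sr_mul_r]; simp
    · rw [DihedralGroup.sr_mul_sr]; simp

lemma comm_of_sgn (x y : D) (hx : sgn x = 1) (hy : sgn y = 1) : x * y = y * x := by
  rcases x with i | i
  · rcases y with j | j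
    · rw [DihedralGroup.r_mul_r, DihedralGroup.r_mul_r, add_comm]
    · exact absurd (show (-1 : ℤˣ) = 1 from hy) (by decide)
  · exact absurd (show (-1 : ℤˣ) = 1 from hx) (by decide)

lemma finset_mem_H (s : Finset GS) : ∃ d, ∀ g ∈ s, g ∈ H d := by
  classical
  induction s using Finset.induction_on with
  | empty => exact ⟨0, fun g hg => by simp at hg⟩
  | insert a s _ ih =>
    obtain ⟨d, hd⟩ := ih
    obtain ⟨e, he⟩ := exists_mem_H a
    refine ⟨max d e, fun g hg => ?_⟩
    rcases Finset.mem_insert.1 hg with rfl | hg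
    · exact H_mono (le_max_right _ _) he
    · exact H_mono (le_max_left _ _) (hd g hg)

lemma GS_lva (s : Finset GS) : ∃ A : Subgroup (Subgroup.closure (s : Set GS)),
    A.FiniteIndex ∧ ∀ a ∈ A, ∀ b ∈ A, a * b = b * a := by
  obtain ⟨d, hd⟩ := finset_mem_H s
  have hle : Subgroup.closure (s : Set GS) ≤ H d := by
    rw [Subgroup.closure_le]
    intro g hg
    exact hd g hg
  let φ : Subgroup.closure (s : Set GS) →* (Fin d → ℤˣ) :=
    { toFun := fun k i => sgn (((k : GS) : ℕ → D) i)
      map_one' := by funext i; exact sgn.map_one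
      map_mul' := by
        intro a b
        funext i
        exact sgn.map_mul _ _ }
  refine ⟨φ.ker, inferInstance, fun a ha b hb => ?_⟩
  apply Subtype.ext
  apply Subtype.ext
  funext i
  rw [MonoidHom.mem_ker] at ha hb
  by_cases hi : i < d
  · have h1 : sgn (((a : GS) : ℕ → D) i) = 1 := congrFun ha ⟨i, hi⟩
    have h2 : sgn (((b : GS) : ℕ → D) i) = 1 := congrFun hb ⟨i, hi⟩
    exact comm_of_sgn _ _ h1 h2
  · have h1 : ((a : GS) : ℕ → D) i = 1 := hle a.2 i (not_lt.1 hi)
    have h2 : ((b : GS) : ℕ → D) i = 1 := hle b.2 i (not_lt.1 hi)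
    show ((a : GS) : ℕ → D) i * ((b : GS) : ℕ → D) i = ((b : GS) : ℕ → D) i * ((a : GS) : ℕ → D) i
    rw [h1, h2]

end Final

/-- There is a countable group `G`, all of whose finitely generated subgroups are virtually
abelian, with two admissible measures `μ, ν` such that `(G, μ)` is algebraically recurrent, while
for `ν` almost surely the identity is missing from the semigroup generated by the walk after
some time; in particular `(G, ν)` is not algebraically recurrent. -/
theorem result : ∃ (G : Type) (_ : Group G) (_ : Countable G) (_ : MeasurableSpace G)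
    (_ : DiscreteMeasurableSpace G) (μ ν : PMF G),
    Admissible μ ∧ Admissible ν ∧ AR μ ∧ ¬ AR ν ∧
    (∀ᵐ ω ∂(steps ν), ∃ n : ℕ, 1 ≤ n ∧ (1 : G) ∉ tail ω n) ∧
    ∀ s : Finset G, ∃ A : Subgroup (Subgroup.closure (s : Set G)),
      A.FiniteIndex ∧ ∀ a ∈ A, ∀ b ∈ A, a * b = b * a := by
  have hcount : Countable GS := countable_GS
  letI : MeasurableSpace GS := ⊤
  haveI : DiscreteMeasurableSpace GS := ⟨fun _ => trivial⟩
  have hs : ∀ᵐ ω ∂(steps nu), ∃ n : ℕ, 1 ≤ n ∧ (1 : GS) ∉ tail ω n := by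
    unfold steps
    filter_upwards [nu_strong] with ω hω
    obtain ⟨n, hn, h⟩ := hω
    exact ⟨n, hn, by rw [tail_eq]; exact h⟩
  refine ⟨GS, inferInstance, hcount, inferInstance, inferInstance, mu, nu,
    ⟨mu_symm, mu_closure⟩, ⟨nu_symm, nu_closure⟩, fun n _ => ?_, fun h => ?_, hs, GS_lva⟩
  · unfold steps
    filter_upwards [mu_AR n] with ω hω
    rw [tail_eq]; exact hω
  · have h1 : ∀ᵐ ω ∂(steps nu), ∀ n : ℕ, 1 ≤ n → tail ω n = ⊤ := by
      rw [ae_all_iff]
      intro n
      by_cases hn : 1 ≤ n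
      · filter_upwards [h n hn] with ω hω _ using hω
      · exact Filter.Eventually.of_forall fun ω hn' => absurd hn' hn
    have h2 : ∀ᵐ ω ∂(steps nu), False := by
      filter_upwards [h1, hs] with ω hω1 hω2
      obtain ⟨n, hn, hω3⟩ := hω2
      rw [hω1 n hn] at hω3
      exact hω3 (Subsemigroup.mem_top _)
    unfold steps at h2
    rw [ae_iff] at h2
    simp at h2

end Pool.Agent.Results.MP_aa6ebe_pr.LocallyVirtuallyAbelian
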